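import Pool.Agent.Y137.GN.Main
import Pool.Agent.TH117.F5.DVersion

/-!
# Numerical equivalence and poles of L-functions for abelian varieties over finite fields of dimension
at most five, and for products of elliptic curves and abelian surfaces
-/

set_option autoImplicit false
set_option linter.unusedSectionVars false
set_option linter.unusedVariables false

namespace Pool.Agent.R299.ANA

open NumberField Pool.Agent.H204R3.CM Pool.Agent.W547.KB Pool.Agent.W547.LD Pool.Agent.W547.HR
open Pool.Agent.W495.TA Module Equiv Filter Topology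
open Pool.Agent.W547.DR Pool.Agent.TH117.F5 Pool.Agent.Y137.SF Pool.Agent.Y137.GN

noncomputable section

variable {p : ℕ} [Fact p.Prime] {ν : PadicAlgCl p ≃+* ℂ} {Ω : Type} [Field Ω] [CharZero Ω]
  {L : Type} [Field L] [NumberField L] {j : L →+* ℂ}

/-- Auxiliary: rational subspaces of Tate classes which span the Tate classes, with rational
intersection numbers. -/
structure IsFullSystem (Ω : Type) [Field Ω] [CharZero Ω] (Y : RedAV p ν) (s : ℕ)
    (A : ∀ n : ℕ, Submodule ℚ ((TM Ω Y) [⋀^Fin (2 * n)]→ₗ[Ω] Ω)) : Prop where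
  tate : ∀ n, ∀ z ∈ A n, IsTateClass Ω Y s n z
  full : ∀ n (z : (TM Ω Y) [⋀^Fin (2 * n)]→ₗ[Ω] Ω), IsTateClass Ω Y s n z →
    z ∈ Submodule.span Ω (A n : Set ((TM Ω Y) [⋀^Fin (2 * n)]→ₗ[Ω] Ω))
  rational : ∃ o : (TM Ω Y) [⋀^Fin (finrank Ω (TM Ω Y))]→ₗ[Ω] Ω,
    ∀ (n m : ℕ) (e : Fin (2 * n) ⊕ Fin (2 * m) ≃ Fin (finrank Ω (TM Ω Y))), ∀ z ∈ A n, ∀ w ∈ A m,
      ∃ a : ℚ, ∀ v : Fin (finrank Ω (TM Ω Y)) → TM Ω Y,
        altSum (times (fun u => z u) (fun u => w u)) (fun k => v (e k)) = (a : Ω) * o v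

variable {Y : RedAV p ν} {A : ∀ n : ℕ, Submodule ℚ ((TM Ω Y) [⋀^Fin (2 * n)]→ₗ[Ω] Ω)}

/-- Numerically trivial classes are zero. -/
theorem zero_of_trivial (jO : L →+* Ω) (hY : Big Y.X j) {s : ℕ}
    (hA : IsFullSystem Ω Y s A) {n : ℕ}
    {z : (TM Ω Y) [⋀^Fin (2 * n)]→ₗ[Ω] Ω} (hz : z ∈ A n) (hnum : IsNumericallyTrivial A z) :
    z = 0 := by
  by_contra hne
  obtain ⟨d, hd⟩ := even_finrank Y.X
  rw [← finrank_TM (Ω := Ω)] at hd
  rcases Nat.lt_or_ge d n with hn | hn
  · exact hne (form_zero (by rw [Fintype.card_fin]; omega) z)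
  · obtain ⟨m, rfl⟩ := Nat.exists_eq_add_of_le hn
    obtain ⟨w, hw, v, hv⟩ := exists_dual_tate jO hY s hd z (hA.tate n z hz) hne
    exact hv (altSum_span (fun w hw v => hnum m hd w hw v) (hA.full m w hw) v)

/-- The span of the classes of cycles. -/
theorem span_iff {s : ℕ}
    (hA : IsFullSystem Ω Y s A) {n : ℕ}
    (z : (TM Ω Y) [⋀^Fin (2 * n)]→ₗ[Ω] Ω) :
    z ∈ Submodule.span Ω (A n : Set ((TM Ω Y) [⋀^Fin (2 * n)]→ₗ[Ω] Ω)) ↔
      IsTateClass Ω Y s n z := by
  constructor
  · intro hz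
    have h : Submodule.span Ω (A n : Set ((TM Ω Y) [⋀^Fin (2 * n)]→ₗ[Ω] Ω)) ≤ Tate Ω Y s n :=
      Submodule.span_le.2 fun w hw => hA.tate n w hw
    exact h hz
  · intro hz
    exact hA.full n z hz

/-- Rational linear independence implies linear independence. -/
theorem indep (jO : L →+* Ω) (hY : Big Y.X j) {s : ℕ}
    (hA : IsFullSystem Ω Y s A) (n : ℕ) {ι : Type}
    (b : ι → (TM Ω Y) [⋀^Fin (2 * n)]→ₗ[Ω] Ω) (hbA : ∀ i, b i ∈ A n)
    (hb : LinearIndependent ℚ b) : LinearIndependent Ω b := by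
  classical
  rw [linearIndependent_iff']
  intro t c hc i0 hi0
  by_contra hne
  obtain ⟨l, hl⟩ : ∃ l : Ω →+ ℚ, l (c i0) ≠ 0 := by
    have h1 : c i0 ∉ (⊥ : Submodule ℚ Ω) := fun h => hne ((Submodule.mem_bot ℚ).1 h)
    obtain ⟨l, hl, _⟩ := Submodule.exists_dual_map_eq_bot_of_notMem h1 inferInstance
    exact ⟨l.toAddMonoidHom, hl⟩
  have hz : ∑ i ∈ t, l (c i) • b i = 0 := by
    refine zero_of_trivial jO hY hA (n := n)
      (Submodule.sum_mem _ fun i _ => Submodule.smul_mem _ _ (hbA i)) ?_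
    intro m hm w hw v
    obtain ⟨o, ho⟩ := hA.rational
    have hcard : Fintype.card (Fin (2 * n) ⊕ Fin (2 * m)) =
        Fintype.card (Fin (finrank Ω (TM Ω Y))) := by
      rw [Fintype.card_sum, Fintype.card_fin, Fintype.card_fin, Fintype.card_fin]
      omega
    let e : Fin (2 * n) ⊕ Fin (2 * m) ≃ Fin (finrank Ω (TM Ω Y)) := Fintype.equivOfCardEq hcard
    have ho2 : ∀ i, ∃ a : ℚ, ∀ v : Fin (finrank Ω (TM Ω Y)) → TM Ω Y,
        altSum (times (fun u => b i u) (fun u => w u)) (fun k => v (e k)) = (a : Ω) * o v :=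
      fun i => ho n m e (b i) (hbA i) w hw
    choose a ha using ho2
    let v' : Fin (finrank Ω (TM Ω Y)) → TM Ω Y := fun k => v (e.symm k)
    have hv' : v = fun k => v' (e k) := by
      funext k
      change v k = v (e.symm (e k))
      rw [e.symm_apply_apply]
    have h1 : (fun u => (∑ i ∈ t, l (c i) • b i) u) =
        fun u => (∑ i ∈ t, ((l (c i) : ℚ) : Ω) • b i) u := by
      funext u
      rw [Finset.sum_congr rfl fun i _ => rat_smul_form (l (c i)) (b i)]
    rw [h1, altSum_sum_left, hv', Finset.sum_congr rfl fun i _ => by rw [ha i v']]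
    have h2 := congrArg (fun z : (TM Ω Y) [⋀^Fin (2 * n)]→ₗ[Ω] Ω =>
      altSum (times (fun u => z u) (fun u => w u)) (fun k => v' (e k))) hc
    beta_reduce at h2
    rw [altSum_sum_left, Finset.sum_congr rfl fun i _ => by rw [ha i v']] at h2
    have h3 : altSum (times (fun u => (0 : (TM Ω Y) [⋀^Fin (2 * n)]→ₗ[Ω] Ω) u) (fun u => w u))
        (fun k => v' (e k)) = 0 := by
      unfold altSum times
      refine Finset.sum_eq_zero fun σ _ => ?_
      beta_reduce
      rw [AlternatingMap.zero_apply]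
      ring
    rw [h3] at h2
    by_cases ho0 : o v' = 0
    · rw [ho0]
      refine Finset.sum_eq_zero fun i _ => ?_
      ring
    · have h4 : ∑ i ∈ t, c i * (a i : Ω) = 0 := by
        have h5 : (∑ i ∈ t, c i * (a i : Ω)) * o v' = 0 := by
          rw [Finset.sum_mul, ← h2]
          refine Finset.sum_congr rfl fun i _ => ?_
          ring
        exact (mul_eq_zero.1 h5).resolve_right ho0
      have h5 := congrArg l h4
      rw [map_sum, map_zero] at h5
      have h6 : ∀ i, l (c i * (a i : Ω)) = l (c i) * a i := by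
        intro i
        have h7 : c i * (a i : Ω) = (a i) • c i := by rw [Rat.smul_def, mul_comm]
        rw [h7, map_rat_smul, smul_eq_mul, mul_comm]
      rw [Finset.sum_congr rfl fun i _ => h6 i] at h5
      have h7 : ∑ i ∈ t, ((l (c i) : ℚ) : Ω) * ((a i : Ω) * o v') =
          ((∑ i ∈ t, l (c i) * a i : ℚ) : Ω) * o v' := by
        rw [Rat.cast_sum, Finset.sum_mul]
        refine Finset.sum_congr rfl fun i _ => ?_
        rw [Rat.cast_mul]
        ring
      rw [h7, h5, Rat.cast_zero, zero_mul]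
  exact hl (linearIndependent_iff'.1 hb t (fun i => l (c i)) hz i0 hi0)

/-- The rank of the group of classes of cycles. -/
theorem finrank_span (jO : L →+* Ω) (hY : Big Y.X j) {s : ℕ}
    (hA : IsFullSystem Ω Y s A) (n : ℕ) :
    finrank ℚ (A n) = finrank Ω (Submodule.span Ω
      (A n : Set ((TM Ω Y) [⋀^Fin (2 * n)]→ₗ[Ω] Ω))) := by
  classical
  let B := Basis.ofVectorSpace ℚ (A n)
  let b : Basis.ofVectorSpaceIndex ℚ (A n) → (TM Ω Y) [⋀^Fin (2 * n)]→ₗ[Ω] Ω := fun i => B i
  have hb : LinearIndependent ℚ b :=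
    B.linearIndependent.map' (A n).subtype (Submodule.ker_subtype _)
  have hb2 : LinearIndependent Ω b := indep jO hY hA n b (fun i => (B i).2) hb
  have hspan : Submodule.span Ω (A n : Set ((TM Ω Y) [⋀^Fin (2 * n)]→ₗ[Ω] Ω)) =
      Submodule.span Ω (Set.range b) := by
    apply le_antisymm
    · rw [Submodule.span_le]
      intro z hz
      have h1 : z ∈ Submodule.span ℚ (Set.range b) := by
        have h2 : (⟨z, hz⟩ : A n) ∈ Submodule.span ℚ (Set.range B) := by
          rw [B.span_eq]
          exact Submodule.mem_top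
        have h3 := Submodule.mem_map_of_mem (f := (A n).subtype) h2
        rw [Submodule.map_span] at h3
        have h4 : ((A n).subtype : A n → _) '' Set.range B = Set.range b := by
          rw [← Set.range_comp]
          rfl
        rw [h4] at h3
        exact h3
      clear hz
      induction h1 using Submodule.span_induction with
      | mem w hw => exact Submodule.subset_span hw
      | zero => exact Submodule.zero_mem _
      | add w w' _ _ h1 h2 => exact Submodule.add_mem _ h1 h2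
      | smul c w _ h1 =>
        rw [rat_smul_form]
        exact Submodule.smul_mem _ _ h1
    · rw [Submodule.span_le]
      rintro _ ⟨i, rfl⟩
      exact Submodule.subset_span (B i).2
  rw [hspan, Module.finrank_eq_nat_card_basis B,
    Module.finrank_eq_nat_card_basis (Basis.span hb2)]

/-- The rational subspaces `S n` have the following properties of the spaces of the rational linear
combinations of the classes of algebraic cycles of codimension `n` on `Y` over the extension of
degree `s` of the ground field: they consist of Tate classes; the Tate classes in the system `AlgS`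
(generated by Tate classes of degree two, reductions of split Weil classes on abelian fourfolds and
sixfolds, and reductions of Hodge classes of degree four on products of elliptic curves and abelian
surfaces) are combinations of elements of `S n` with coefficients in `Ω` (theorems of Tate, Markman,
and Ramón Marí); intersection numbers are rational. -/
structure CycleSystemS {Y : RedAV p ν} (s : ℕ) (S : Sys Ω Y) : Prop where
  tate : ∀ n, ∀ z ∈ S n, Pool.Agent.W547.DR.IsTate s z
  algS : ∀ n (z : Coh Ω Y n), AlgS Ω {4, 6} Y (Fin (2 * n)) z → Pool.Agent.W547.DR.IsTate s z →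
    z ∈ Submodule.span Ω (S n : Set (Coh Ω Y n))
  rational : RationalNumbers S

theorem full_of_system [IsAlgClosed Ω] {Y : RedAV p ν} (hY : IsGoodAVS Y) {s : ℕ} (hs : 0 < s)
    {S : Sys Ω Y} (hS : CycleSystemS s S) : IsFullSystem Ω Y s S :=
  ⟨hS.tate, fun n z hz => hS.algS n z (algS_goodS hY s n hs z hz) hz, hS.rational⟩

theorem exists_full (jO : L →+* Ω) {Y : RedAV p ν} (hY : Big Y.X j) (s : ℕ) :
    ∃ A : ∀ n : ℕ, Submodule ℚ ((TM Ω Y) [⋀^Fin (2 * n)]→ₗ[Ω] Ω), IsFullSystem Ω Y s A := by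
  classical
  have := finite_wt hY
  let _ : Fintype (Wt Y.X L) := Fintype.ofFinite _
  obtain ⟨e, h1, h2⟩ := Pool.Agent.W67.TA.basis p ν Ω L j jO Y hY
  have hFe : ∀ w, (F Ω Y ^ s) (e w) = (jO (w.2 (Y.π w.1))) ^ s • e w :=
    fun w => F_pow_e jO e h1 h2 w s
  refine ⟨fun n => ratSystem Y e s n, ?_⟩
  constructor
  · intro n z hz
    exact hz.1
  · intro n z hz
    have hne : (Fintype.card (Perm (Fin (2 * n))) : Ω) ≠ 0 := Nat.cast_ne_zero.2 Fintype.card_ne_zero
    have h3 : z = (Fintype.card (Perm (Fin (2 * n))) : Ω)⁻¹ •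
        ∑ I : Fin (2 * n) → Wt Y.X L, z (fun k => e (I k)) • detI e I := by
      ext v
      let E : ((TM Ω Y) [⋀^Fin (2 * n)]→ₗ[Ω] Ω) →+ Ω :=
        { toFun := fun f => f v, map_zero' := rfl, map_add' := fun _ _ => rfl }
      have h4 : (∑ I : Fin (2 * n) → Wt Y.X L, z (fun k => e (I k)) • detI e I) v =
        ∑ I : Fin (2 * n) → Wt Y.X L, (z (fun k => e (I k)) • detI e I) v := map_sum E _ _
      rw [AlternatingMap.smul_apply, h4]
      have h5 : ∑ I : Fin (2 * n) → Wt Y.X L, (z (fun k => e (I k)) • detI e I) v =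
          (Fintype.card (Perm (Fin (2 * n))) : Ω) * z v := by
        rw [← expand e z v]
        refine Finset.sum_congr rfl fun I _ => ?_
        rw [AlternatingMap.smul_apply, smul_eq_mul]
      rw [h5, smul_eq_mul, ← mul_assoc, inv_mul_cancel₀ hne, one_mul]
    rw [h3]
    refine Submodule.smul_mem _ _ (Submodule.sum_mem _ fun I _ => ?_)
    by_cases hI : z (fun k => e (I k)) = 0
    · rw [hI, zero_smul]
      exact Submodule.zero_mem _
    · refine Submodule.smul_mem _ _ (Submodule.subset_span ⟨?_, fun J => detI_rat e I J⟩)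
      have h4 : ∏ k, (jO ((I k).2 (Y.π (I k).1))) ^ s = ((p : Ω) ^ Y.a) ^ (n * s) := by
        have h5 := hz (fun k => e (I k))
        simp only [hFe] at h5
        rw [AlternatingMap.map_smul_univ, smul_eq_mul] at h5
        exact mul_right_cancel₀ hI h5
      intro v
      rw [detI_eig e (F Ω Y ^ s) (fun w => (jO (w.2 (Y.π w.1))) ^ s) hFe, h4]
  · have hcard : Fintype.card (Wt Y.X L) = Fintype.card (Fin (finrank Ω (TM Ω Y))) := by
      rw [Fintype.card_fin, Module.finrank_eq_card_basis e]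
    let e' : Basis (Fin (finrank Ω (TM Ω Y))) Ω (TM Ω Y) :=
      e.reindex (Fintype.equivOfCardEq hcard)
    have he' : ∀ k, ∃ w, e' k = e w := fun k => ⟨_, Basis.reindex_apply _ _ _⟩
    choose W hW using he'
    refine ⟨e'.det, ?_⟩
    intro n m E z hz w hw
    have h4 : ∃ a : ℚ, altSum (times (fun u => z u) (fun u => w u)) (fun k => e' (E k)) =
        (a : Ω) := by
      have h5 : ∀ σ : Perm (Fin (2 * n) ⊕ Fin (2 * m)), ∃ a : ℚ,
          ((Perm.sign σ : ℤ) : Ω) * (z (fun k => e' (E (σ (Sum.inl k)))) *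
            w (fun k => e' (E (σ (Sum.inr k))))) = (a : Ω) := by
        intro σ
        obtain ⟨a, ha⟩ := hz.2 (fun k => W (E (σ (Sum.inl k))))
        obtain ⟨b, hb⟩ := hw.2 (fun k => W (E (σ (Sum.inr k))))
        refine ⟨(Perm.sign σ : ℤ) * (a * b), ?_⟩
        simp only [hW]
        rw [ha, hb]
        push_cast
        rfl
      choose a ha using h5
      refine ⟨∑ σ, a σ, ?_⟩
      rw [Rat.cast_sum]
      exact Finset.sum_congr rfl fun σ _ => ha σ
    obtain ⟨a, ha⟩ := h4
    refine ⟨a, fun v => ?_⟩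
    rw [top_det e' E z w v, ha]

theorem exists_systemS (jO : L →+* Ω) {Y : RedAV p ν} (hY : Big Y.X j) (s : ℕ) :
    ∃ S : Sys Ω Y, CycleSystemS s S := by
  obtain ⟨A, hA⟩ := exists_full jO hY s
  exact ⟨A, hA.tate, fun n z _ hz => hA.full n z hz, hA.rational⟩

/-- The analytic form of the Tate conjecture. -/
theorem goodAnalytic {Y : RedAV p ν} (hY : IsGoodAVS Y) (s : ℕ) (hs : 0 < s) :
    (∃ S : Sys ℂ Y, CycleSystemS s S) ∧
      ∀ S : Sys ℂ Y, CycleSystemS s S → ∀ n : ℕ, AnalyticFormula s S n := by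
  obtain ⟨L, _, _, j, hj⟩ := exists_big Y
  refine ⟨exists_systemS j hj s, fun S hS n => ?_⟩
  have hF := full_of_system hY hs hS
  refine ⟨fun z hz hn => zero_of_trivial j hj hF hz hn, ?_⟩
  have h3 := phi_limit hj s hs n
  have h4 : Submodule.span ℂ (S n : Set (Coh ℂ Y n)) = Tate ℂ Y s n := by
    ext z
    exact span_iff hF z
  have h6 := finrank_span j hj hF n
  have h5 : finrank ℂ (Submodule.span ℂ (S n : Set (Coh ℂ Y n))) = finrank ℂ (Tate ℂ Y s n) := by
    exact congrArg (fun T : Submodule ℂ ((TM ℂ Y) [⋀^Fin (2 * n)]→ₗ[ℂ] ℂ) => finrank ℂ T) h4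
  have h7 : finrank ℚ (S n) = finrank ℂ (Tate ℂ Y s n) := h6.trans h5
  rw [h7]
  exact h3

end

end Pool.Agent.R299.ANA
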